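import Pool.Agent.Helper68.SDP.Spec

set_option autoImplicit false

namespace Pool.Agent.Helper36.SDP

open Finset Pool.Agent.Helper68.SDP

/-- sign of a bit -/
def sg (b : Bool) : ℝ := if b = true then (-1 : ℝ) else 1

theorem sg_mul_self (b : Bool) : sg b * sg b = 1 := by
  cases b <;> simp [sg]

theorem chi_eq {ι : Type} (A : Finset ι) (x : ι → Bool) : chi A x = ∏ i ∈ A, sg (x i) := rfl

theorem chi_mul {ι : Type} [DecidableEq ι] (A B : Finset ι) (x : ι → Bool) :
    chi A x * chi B x = chi (symmDiff A B) x := by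
  have h1 : ∏ i ∈ A, sg (x i) = (∏ i ∈ A \ B, sg (x i)) * ∏ i ∈ A ∩ B, sg (x i) := by
    rw [← Finset.prod_union]
    · rw [Finset.sdiff_union_inter]
    · exact Finset.disjoint_sdiff_inter A B
  have h2 : ∏ i ∈ B, sg (x i) = (∏ i ∈ B \ A, sg (x i)) * ∏ i ∈ A ∩ B, sg (x i) := by
    rw [Finset.inter_comm A B, ← Finset.prod_union]
    · rw [Finset.sdiff_union_inter]
    · exact Finset.disjoint_sdiff_inter B A
  have h3 : ∏ i ∈ symmDiff A B, sg (x i) = (∏ i ∈ A \ B, sg (x i)) * ∏ i ∈ B \ A, sg (x i) := by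
    rw [← Finset.prod_union]
    · rfl
    · exact disjoint_sdiff_sdiff
  have h4 : (∏ i ∈ A ∩ B, sg (x i)) * ∏ i ∈ A ∩ B, sg (x i) = 1 := by
    rw [← Finset.prod_mul_distrib]
    exact Finset.prod_eq_one (fun i _ => sg_mul_self (x i))
  rw [chi_eq, chi_eq, chi_eq, h1, h2, h3]
  calc (∏ i ∈ A \ B, sg (x i)) * (∏ i ∈ A ∩ B, sg (x i)) *
      ((∏ i ∈ B \ A, sg (x i)) * ∏ i ∈ A ∩ B, sg (x i))
      = (∏ i ∈ A \ B, sg (x i)) * (∏ i ∈ B \ A, sg (x i)) *
        ((∏ i ∈ A ∩ B, sg (x i)) * ∏ i ∈ A ∩ B, sg (x i)) := by ring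
    _ = _ := by rw [h4, mul_one]

theorem chi_mem {ι : Type} {k : ℕ} (A : Finset ι) (h : A.card ≤ k) : chi A ∈ Deg ι k :=
  Submodule.subset_span ⟨A, h, rfl⟩

theorem deg_mono {ι : Type} {k l : ℕ} (h : k ≤ l) : Deg ι k ≤ Deg ι l := by
  refine Submodule.span_mono ?_
  rintro q ⟨A, hA, rfl⟩
  exact ⟨A, hA.trans h, rfl⟩

theorem card_symmDiff_le {ι : Type} [DecidableEq ι] (A B : Finset ι) :
    (symmDiff A B).card ≤ A.card + B.card := by
  have h : symmDiff A B ⊆ A ∪ B := by
    intro i hi
    rw [Finset.mem_symmDiff] at hi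
    rw [Finset.mem_union]
    rcases hi with h | h
    · exact Or.inl h.1
    · exact Or.inr h.1
  exact (Finset.card_le_card h).trans (Finset.card_union_le A B)

theorem deg_mul {ι : Type} [DecidableEq ι] (k l : ℕ) (p q : (ι → Bool) → ℝ)
    (hp : p ∈ Deg ι k) (hq : q ∈ Deg ι l) : (fun x => p x * q x) ∈ Deg ι (k + l) := by
  have key : p * q ∈ Deg ι (k + l) := by
    refine Submodule.span_induction (p := fun p _ => p * q ∈ Deg ι (k + l)) ?_ ?_ ?_ ?_ hp
    · rintro p ⟨A, hA, rfl⟩
      refine Submodule.span_induction (p := fun q _ => chi A * q ∈ Deg ι (k + l)) ?_ ?_ ?_ ?_ hq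
      · rintro q ⟨B, hB, rfl⟩
        have : chi A * chi B = chi (symmDiff A B) := by
          funext x
          exact chi_mul A B x
        rw [this]
        exact chi_mem _ ((card_symmDiff_le A B).trans (Nat.add_le_add hA hB))
      · rw [mul_zero]; exact Submodule.zero_mem _
      · intro a b _ _ ha hb
        rw [mul_add]; exact Submodule.add_mem _ ha hb
      · intro c a _ ha
        rw [mul_smul_comm]; exact Submodule.smul_mem _ c ha
    · rw [zero_mul]; exact Submodule.zero_mem _
    · intro a b _ _ ha hb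
      rw [add_mul]; exact Submodule.add_mem _ ha hb
    · intro c a _ ha
      rw [smul_mul_assoc]; exact Submodule.smul_mem _ c ha
  exact key

theorem one_mem {ι : Type} (k : ℕ) : (1 : (ι → Bool) → ℝ) ∈ Deg ι k := by
  have h : (1 : (ι → Bool) → ℝ) = chi (∅ : Finset ι) := by
    funext x
    simp [chi]
  rw [h]
  exact chi_mem _ (by simp)

theorem prod_mem_deg {ι κ : Type} [DecidableEq ι] (S : Finset κ) (f : κ → (ι → Bool) → ℝ)
    (hf : ∀ s ∈ S, f s ∈ Deg ι 1) : ∏ s ∈ S, f s ∈ Deg ι S.card := by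
  classical
  induction S using Finset.induction_on with
  | empty => rw [Finset.prod_empty]; exact one_mem _
  | insert a S ha ih =>
    rw [Finset.prod_insert ha, Finset.card_insert_of_notMem ha, Nat.add_comm]
    exact deg_mul 1 S.card (f a) (∏ s ∈ S, f s) (hf a (Finset.mem_insert_self a S))
      (ih (fun s hs => hf s (Finset.mem_insert_of_mem hs)))

theorem sg_prod_half (a b : Bool) : (1 + sg a * sg b) / 2 = if a = b then (1 : ℝ) else 0 := by
  cases a <;> cases b <;> simp [sg]

theorem dg : specDG := by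
  refine ⟨?_, ?_⟩
  · intro ι _ _ k l p q hp hq
    exact deg_mul k l p q hp hq
  · intro m N D φ
    have h1 : (fun x : Fin m × Fin N → Bool => D (sel φ x))
        = ∑ z : Fin m → Bool, D z • ∏ i : Fin m,
            (fun x : Fin m × Fin N → Bool => (1 + sg (x (i, φ i)) * sg (z i)) / 2) := by
      funext x
      rw [Finset.sum_apply]
      have h2 : ∀ z : Fin m → Bool, (D z • ∏ i : Fin m,
            (fun x : Fin m × Fin N → Bool => (1 + sg (x (i, φ i)) * sg (z i)) / 2)) x
            = if sel φ x = z then D z else 0 := by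
        intro z
        rw [Pi.smul_apply, Finset.prod_apply, smul_eq_mul]
        by_cases h : sel φ x = z
        · rw [if_pos h, Finset.prod_eq_one, mul_one]
          intro i _
          rw [sg_prod_half, if_pos]
          exact congrFun h i
        · rw [if_neg h]
          have h3 : ∃ i, ¬ x (i, φ i) = z i := by
            by_contra hcon
            push Not at hcon
            exact h (funext hcon)
          obtain ⟨i, hi⟩ := h3
          rw [Finset.prod_eq_zero (Finset.mem_univ i), mul_zero]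
          rw [sg_prod_half, if_neg hi]
      rw [Finset.sum_congr rfl (fun z _ => h2 z), Finset.sum_ite_eq]
      simp
    rw [h1]
    refine Submodule.sum_mem _ (fun z _ => Submodule.smul_mem _ _ ?_)
    have h4 := prod_mem_deg (ι := Fin m × Fin N) (Finset.univ : Finset (Fin m))
      (fun i => fun x : Fin m × Fin N → Bool => (1 + sg (x (i, φ i)) * sg (z i)) / 2) ?_
    · rw [Finset.card_univ, Fintype.card_fin] at h4
      exact h4
    · intro i _
      have h5 : (fun x : Fin m × Fin N → Bool => (1 + sg (x (i, φ i)) * sg (z i)) / 2)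
          = (1 / 2 : ℝ) • (1 : (Fin m × Fin N → Bool) → ℝ)
            + (sg (z i) / 2) • chi ({(i, φ i)} : Finset (Fin m × Fin N)) := by
        funext x
        simp only [Pi.add_apply, Pi.smul_apply, Pi.one_apply, smul_eq_mul, chi_eq,
          Finset.prod_singleton]
        ring
      rw [h5]
      exact Submodule.add_mem _ (Submodule.smul_mem _ _ (one_mem _))
        (Submodule.smul_mem _ _ (chi_mem _ (by simp)))

end Pool.Agent.Helper36.SDP
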