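import Pool.Agent.Helper68.SDP.Spec

set_option autoImplicit false

namespace Pool.Agent.Helper36.SDP

open Matrix Finset Pool.Agent.Helper68.SDP

theorem spec_real {r : ℕ} (A : Matrix (Fin r) (Fin r) ℝ) (hA : A.PosSemidef) :
    ∃ (U : Matrix (Fin r) (Fin r) ℝ) (lam : Fin r → ℝ), (∀ i, 0 ≤ lam i) ∧ Uᵀ * U = 1 ∧
      U * Uᵀ = 1 ∧ A = U * diagonal lam * Uᵀ := by
  have hH : A.IsHermitian := hA.isHermitian
  have hU1 : star (hH.eigenvectorUnitary : Matrix (Fin r) (Fin r) ℝ)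
      * (hH.eigenvectorUnitary : Matrix (Fin r) (Fin r) ℝ) = 1 :=
    Unitary.coe_star_mul_self hH.eigenvectorUnitary
  have hU2 : (hH.eigenvectorUnitary : Matrix (Fin r) (Fin r) ℝ)
      * star (hH.eigenvectorUnitary : Matrix (Fin r) (Fin r) ℝ) = 1 :=
    Unitary.coe_mul_star_self hH.eigenvectorUnitary
  have hst : star (hH.eigenvectorUnitary : Matrix (Fin r) (Fin r) ℝ)
      = (hH.eigenvectorUnitary : Matrix (Fin r) (Fin r) ℝ)ᵀ := by
    rw [Matrix.star_eq_conjTranspose, Matrix.conjTranspose_eq_transpose_of_trivial]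
  rw [hst] at hU1 hU2
  refine ⟨(hH.eigenvectorUnitary : Matrix (Fin r) (Fin r) ℝ), hH.eigenvalues,
    hA.eigenvalues_nonneg, hU1, hU2, ?_⟩
  have h := hH.spectral_theorem
  rw [Unitary.conjStarAlgAut_apply, hst] at h
  exact h

theorem pow_spec {r : ℕ} {A U : Matrix (Fin r) (Fin r) ℝ} {lam : Fin r → ℝ}
    (h1 : Uᵀ * U = 1) (h2 : U * Uᵀ = 1) (hA : A = U * diagonal lam * Uᵀ) (j : ℕ) :
    A ^ j = U * diagonal (fun i => lam i ^ j) * Uᵀ := by
  induction j with
  | zero =>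
    have h0 : (diagonal (fun i : Fin r => lam i ^ 0) : Matrix (Fin r) (Fin r) ℝ) = 1 := by
      simp
    rw [h0, pow_zero, Matrix.mul_one, h2]
  | succ j ih =>
    rw [pow_succ, ih]
    nth_rewrite 1 [hA]
    calc U * diagonal (fun i => lam i ^ j) * Uᵀ * (U * diagonal lam * Uᵀ)
        = U * diagonal (fun i => lam i ^ j) * (Uᵀ * U) * diagonal lam * Uᵀ := by
          simp only [Matrix.mul_assoc]
      _ = U * (diagonal (fun i => lam i ^ j) * diagonal lam) * Uᵀ := by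
          rw [h1, Matrix.mul_one]
          simp only [Matrix.mul_assoc]
      _ = U * diagonal (fun i => lam i ^ (j + 1)) * Uᵀ := by
          rw [Matrix.diagonal_mul_diagonal]
          have : (fun i => lam i ^ j * lam i) = fun i => lam i ^ (j + 1) := by
            funext i
            rw [pow_succ]
          rw [this]

theorem trace_pow_mul {r : ℕ} {A U : Matrix (Fin r) (Fin r) ℝ} {lam : Fin r → ℝ}
    (h1 : Uᵀ * U = 1) (h2 : U * Uᵀ = 1) (hA : A = U * diagonal lam * Uᵀ)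
    (Q : Matrix (Fin r) (Fin r) ℝ) (j : ℕ) :
    (A ^ j * Q).trace = ∑ i, lam i ^ j * (Uᵀ * Q * U) i i := by
  rw [pow_spec h1 h2 hA j]
  have : (U * diagonal (fun i => lam i ^ j) * Uᵀ * Q).trace
      = (diagonal (fun i => lam i ^ j) * (Uᵀ * Q * U)).trace := by
    rw [Matrix.mul_assoc, Matrix.mul_assoc, Matrix.trace_mul_comm]
    simp only [Matrix.mul_assoc]
  rw [this, Matrix.trace]
  refine Finset.sum_congr rfl (fun i _ => ?_)
  rw [Matrix.diag_apply, Matrix.diagonal_mul]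

theorem trace_pow {r : ℕ} {A U : Matrix (Fin r) (Fin r) ℝ} {lam : Fin r → ℝ}
    (h1 : Uᵀ * U = 1) (h2 : U * Uᵀ = 1) (hA : A = U * diagonal lam * Uᵀ) (j : ℕ) :
    (A ^ j).trace = ∑ i, lam i ^ j := by
  have h := trace_pow_mul h1 h2 hA 1 j
  rw [Matrix.mul_one, Matrix.mul_one, h1] at h
  rw [h]
  refine Finset.sum_congr rfl (fun i _ => ?_)
  rw [Matrix.one_apply_eq, mul_one]

theorem conj_diag_nonneg {r : ℕ} (Q U : Matrix (Fin r) (Fin r) ℝ) (hQ : Q.PosSemidef)
    (i : Fin r) : 0 ≤ (Uᵀ * Q * U) i i := by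
  have h := hQ.conjTranspose_mul_mul_same U
  rw [Matrix.conjTranspose_eq_transpose_of_trivial] at h
  exact h.diag_nonneg

theorem conj_diag_le {r : ℕ} (Q U : Matrix (Fin r) (Fin r) ℝ) (c : ℝ)
    (hQ : (c • (1 : Matrix (Fin r) (Fin r) ℝ) - Q).PosSemidef) (h1 : Uᵀ * U = 1)
    (i : Fin r) : (Uᵀ * Q * U) i i ≤ c := by
  have h := conj_diag_nonneg _ U hQ i
  have h2 : Uᵀ * (c • (1 : Matrix (Fin r) (Fin r) ℝ) - Q) * U
      = c • (1 : Matrix (Fin r) (Fin r) ℝ) - Uᵀ * Q * U := by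
    rw [Matrix.mul_sub, Matrix.sub_mul, Matrix.mul_smul, Matrix.mul_one, Matrix.smul_mul, h1]
  rw [h2, Matrix.sub_apply, Matrix.smul_apply, Matrix.one_apply_eq, smul_eq_mul, mul_one] at h
  linarith

theorem scalar_ineq (l θ : ℝ) (hl : 0 ≤ l) (hθ : 0 ≤ θ) (j : ℕ) :
    (j + 1 : ℝ) * (θ * l ^ j) ≤ j * l ^ (j + 1) + θ ^ (j + 1) := by
  induction j with
  | zero => simp
  | succ j ih =>
    -- (l^(j+1) - θ^(j+1)) (l - θ) ≥ 0
    have h : 0 ≤ (l ^ (j + 1) - θ ^ (j + 1)) * (l - θ) := by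
      rcases le_total l θ with h | h
      · have h' : l ^ (j + 1) ≤ θ ^ (j + 1) := pow_le_pow_left₀ hl h _
        exact mul_nonneg_of_nonpos_of_nonpos (by linarith) (by linarith)
      · have h' : θ ^ (j + 1) ≤ l ^ (j + 1) := pow_le_pow_left₀ hθ h _
        exact mul_nonneg (by linarith) (by linarith)
    have h2 : l * ((j + 1 : ℝ) * (θ * l ^ j)) ≤ l * (j * l ^ (j + 1) + θ ^ (j + 1)) :=
      mul_le_mul_of_nonneg_left ih hl
    push_cast
    have e1 : ((j : ℝ) + 1 + 1) * (θ * l ^ (j + 1)) = l * ((j + 1 : ℝ) * (θ * l ^ j))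
        + θ * l ^ (j + 1) := by ring
    have e2 : ((j : ℝ) + 1) * l ^ (j + 1 + 1) + θ ^ (j + 1 + 1)
        = l * (j * l ^ (j + 1) + θ ^ (j + 1)) + θ * l ^ (j + 1)
          + (l ^ (j + 1) - θ ^ (j + 1)) * (l - θ) := by ring
    rw [e1, e2]
    linarith

theorem po : specPO := by
  intro X _ r A Q hA hQ
  have hsp := fun x => spec_real (A x) (hA x)
  choose U lam hlam hU1 hU2 hAx using hsp
  refine ⟨?_, ?_⟩
  · intro c θ hc hθ hcQ hT hmain j
    set T : ℝ := ∑ x, (Q x).trace with hTdef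
    -- weights
    set w : X × Fin r → ℝ := fun p => ((U p.1)ᵀ * Q p.1 * U p.1) p.2 p.2 with hwdef
    set z : X × Fin r → ℝ := fun p => lam p.1 p.2 with hzdef
    have hw0 : ∀ p, 0 ≤ w p := fun p => conj_diag_nonneg _ _ (hQ p.1) p.2
    have hwc : ∀ p, w p ≤ c := fun p => conj_diag_le _ _ c (hcQ p.1) (hU1 p.1) p.2
    have hz0 : ∀ p, 0 ≤ z p := fun p => hlam p.1 p.2
    have hsum : ∀ k : ℕ, ∑ x, (A x ^ k * Q x).trace = ∑ p, w p * z p ^ k := by
      intro k
      rw [Fintype.sum_prod_type]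
      refine Finset.sum_congr rfl (fun x _ => ?_)
      rw [trace_pow_mul (hU1 x) (hU2 x) (hAx x)]
      exact Finset.sum_congr rfl (fun i _ => mul_comm _ _)
    have hsum2 : ∀ k : ℕ, ∑ x, (A x ^ k).trace = ∑ p, z p ^ k := by
      intro k
      rw [Fintype.sum_prod_type]
      refine Finset.sum_congr rfl (fun x _ => ?_)
      rw [trace_pow (hU1 x) (hU2 x) (hAx x)]
    have hwT : ∑ p, w p = T := by
      have h := hsum 0
      simp only [pow_zero, Matrix.one_mul, mul_one] at h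
      exact h.symm
    have hw1 : ∑ p, w p / T = 1 := by
      rw [← Finset.sum_div, hwT, div_self (ne_of_gt hT)]
    have hθle : θ ≤ ∑ p, (w p / T) * z p := by
      have h := hsum 1
      simp only [pow_one] at h
      rw [h] at hmain
      have h3 : ∑ p, (w p / T) * z p = (∑ p, w p * z p) / T := by
        rw [Finset.sum_div]
        exact Finset.sum_congr rfl (fun p _ => by ring)
      rw [h3, le_div_iff₀ hT]
      exact hmain
    have hJ := Real.pow_arith_mean_le_arith_mean_pow Finset.univ (fun p => w p / T) z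
      (fun p _ => div_nonneg (hw0 p) hT.le) hw1 (fun p _ => hz0 p) j
    have h4 : θ ^ j ≤ ∑ p, (w p / T) * z p ^ j :=
      (pow_le_pow_left₀ hθ hθle j).trans hJ
    have h5 : ∑ p, (w p / T) * z p ^ j = (∑ p, w p * z p ^ j) / T := by
      rw [Finset.sum_div]
      exact Finset.sum_congr rfl (fun p _ => by ring)
    rw [h5, le_div_iff₀ hT] at h4
    refine h4.trans ?_
    rw [hsum2, Finset.mul_sum]
    exact Finset.sum_le_sum (fun p _ => mul_le_mul_of_nonneg_right (hwc p) (pow_nonneg (hz0 p) j))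
  · intro θ hθ j
    have hsum2 : ∀ k : ℕ, ∑ x, (A x ^ k).trace = ∑ p : X × Fin r, lam p.1 p.2 ^ k := by
      intro k
      rw [Fintype.sum_prod_type]
      refine Finset.sum_congr rfl (fun x _ => ?_)
      rw [trace_pow (hU1 x) (hU2 x) (hAx x)]
    rw [hsum2, hsum2]
    have hcard : θ ^ (j + 1) * ((r : ℝ) * Fintype.card X) = ∑ _p : X × Fin r, θ ^ (j + 1) := by
      rw [Finset.sum_const, Finset.card_univ, Fintype.card_prod, Fintype.card_fin, nsmul_eq_mul]
      push_cast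
      ring
    rw [hcard, ← Finset.sum_sub_distrib, Finset.mul_sum, ← Finset.sum_sub_distrib,
      Finset.mul_sum]
    refine Finset.sum_le_sum (fun p _ => ?_)
    have h := scalar_ineq (lam p.1 p.2) θ (hlam p.1 p.2) hθ j
    nlinarith [h]

end Pool.Agent.Helper36.SDP
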